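import Pool.Agent.V5helper52.UC.Abs
import Pool.Agent.V5helper52.UC.Box
import Pool.Agent.V5helper52.UC.Span

/-!
# A uniform scale for characteristic polynomials in difference sets of trace zero integer matrices

For every `d ≥ 2` and `α > 0` there is one positive integer `k` such that every set `E` of trace
zero integer `d × d` matrices of upper Banach density at least `α` is `k`-good.

Outline. The set gives an isometric representation `U` of the group `V` of trace zero matrices on a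
Hilbert space and a vector `f` with `⟪U v f, f⟫ = 0` for `v ∉ E - E`, whose projection to the
invariant vectors has norm at least `α`. The orbits used are
`k γ_i (1 + t N) C (1 - t N) γ_i⁻¹ = k (- t² W_i + t b_i + c_i)`, where `C` is a companion matrix,
`N` is an elementary nilpotent matrix, and any `D + 1` of the matrices `W_i = γ_i N γ_i⁻¹` span a
subgroup of finite index. By van der Corput's inequality and the mean ergodic theorem, on average
over `i` the part of `f` orthogonal to the vectors fixed by `k M V` does not contribute, with `M`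
depending on `d` and `α` only; a pigeonhole argument over `k = M ^ j` gives a scale with
`j < 4 / α² + 1` at which the `k V`-invariant part dominates.
-/

set_option autoImplicit false

namespace Pool.Agent.Results.MP_4086d8_co.UniformScale

open Filter Finset Matrix Topology
open scoped RealInnerProductSpace
open Pool.Agent.V5helper52.UC

/-- The index set of the coordinates of a trace zero matrix: all positions but the last diagonal
one, that is `a_ij` with `i ≠ j` and `a_11, ..., a_{d-1,d-1}`. -/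
abbrev Coord (d : ℕ) : Type := {p : Fin d × Fin d // ¬ (p.1 = p.2 ∧ (p.1 : ℕ) + 1 = d)}

/-- The trace zero matrices whose coordinates lie in the box `∏ [a_p, b_p)`. -/
def box {d : ℕ} (a b : Coord d → ℤ) : Set (Matrix (Fin d) (Fin d) ℤ) :=
  {A | A.trace = 0 ∧ ∀ p : Coord d, a p ≤ A p.1.1 p.1.2 ∧ A p.1.1 p.1.2 < b p}

/-- The upper Banach density: the limit superior, as `min_p (b_p - a_p)` tends to infinity, of the
number of elements of `E` in the box `∏ [a_p, b_p)` divided by `∏ (b_p - a_p)`. -/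
noncomputable def upperBanachDensity {d : ℕ} (E : Set (Matrix (Fin d) (Fin d) ℤ)) : ℝ :=
  limsup (fun ab : (Coord d → ℤ) × (Coord d → ℤ) =>
      ((E ∩ box ab.1 ab.2).ncard : ℝ) / ∏ p, ((ab.2 p - ab.1 p : ℤ) : ℝ))
    (comap (fun ab => ⨅ p, (ab.2 p - ab.1 p)) atTop)

/-- `E` is `k`-good: for every trace zero `A`, the characteristic polynomial of `k A` is that of a
difference of two elements of `E`. -/
def IsGood {d : ℕ} (k : ℕ) (E : Set (Matrix (Fin d) (Fin d) ℤ)) : Prop :=
  ∀ A : Matrix (Fin d) (Fin d) ℤ, A.trace = 0 →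
    ∃ X ∈ E, ∃ Y ∈ E, (X - Y).charpoly = (k • A).charpoly

/-- the group of trace zero matrices -/
def Mat0 (d : ℕ) : AddSubgroup (Matrix (Fin d) (Fin d) ℤ) where
  carrier := {A | A.trace = 0}
  add_mem' := by
    intro A B hA hB
    show (A + B).trace = 0
    rw [Matrix.trace_add, hA, hB, add_zero]
  zero_mem' := Matrix.trace_zero _ _
  neg_mem' := by
    intro A hA
    show (-A).trace = 0
    rw [Matrix.trace_neg, hA, neg_zero]

/-- the coordinates -/
def coords {d : ℕ} (A : Matrix (Fin d) (Fin d) ℤ) : Coord d → ℤ := fun p => A p.1.1 p.1.2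

theorem coords_inj {d : ℕ} {A B : Matrix (Fin d) (Fin d) ℤ} (hA : A.trace = 0) (hB : B.trace = 0)
    (h : coords A = coords B) : A = B := by
  have h1 : ∀ i j : Fin d, ¬ (i = j ∧ (i : ℕ) + 1 = d) → A i j = B i j := fun i j hij =>
    congrFun h ⟨(i, j), hij⟩
  ext i j
  by_cases hij : i = j ∧ (i : ℕ) + 1 = d
  · obtain ⟨rfl, hi⟩ := hij
    have hA' : A i i = - ∑ l ∈ univ.erase i, A l l := by
      have : ∑ l, A l l = 0 := hA
      rw [← add_sum_erase _ _ (mem_univ i)] at this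
      linarith
    have hB' : B i i = - ∑ l ∈ univ.erase i, B l l := by
      have : ∑ l, B l l = 0 := hB
      rw [← add_sum_erase _ _ (mem_univ i)] at this
      linarith
    rw [hA', hB']
    congr 1
    refine sum_congr rfl fun l hl => h1 l l ?_
    rintro ⟨_, hl2⟩
    exact ne_of_mem_erase hl (Fin.ext (by omega))
  · exact h1 i j hij

theorem exists_boxes {m : ℕ} {E : Set (Matrix (Fin (m + 2)) (Fin (m + 2)) ℤ)}
    (hE : ∀ A ∈ E, A.trace = 0) {α : ℝ} (hα : α ≤ upperBanachDensity E) (n : ℕ) :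
    ∃ a b : Coord (m + 2) → ℤ, (∀ p, (n : ℤ) + 1 ≤ b p - a p) ∧
      (α - 1 / ((n : ℝ) + 1)) * ∏ p, ((b p - a p : ℤ) : ℝ) ≤
        (((coords '' E ∩ {x | ∀ p, a p ≤ x p ∧ x p < b p}).ncard : ℕ) : ℝ) := by
  have hne : Nonempty (Coord (m + 2)) := ⟨⟨(0, 1), by simp⟩⟩
  set F : Filter ((Coord (m + 2) → ℤ) × (Coord (m + 2) → ℤ)) :=
    comap (fun ab => ⨅ p, (ab.2 p - ab.1 p)) atTop with hF
  have hFne : F.NeBot := by
    rw [hF]
    refine NeBot.comap_of_surj inferInstance fun c => ⟨(fun _ => 0, fun _ => c), ?_⟩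
    simp
  have hev : ∀ᶠ ab in F, ∀ p, (n : ℤ) + 1 ≤ ab.2 p - ab.1 p := by
    have h1 : ∀ᶠ ab in F, (n : ℤ) + 1 ≤ ⨅ p, (ab.2 p - ab.1 p) :=
      tendsto_comap.eventually (eventually_ge_atTop ((n : ℤ) + 1))
    filter_upwards [h1] with ab hab p
    exact hab.trans (ciInf_le (Set.finite_range _).bddBelow p)
  have hpos : ∀ᶠ ab in F, (0 : ℝ) ≤
      ((E ∩ box ab.1 ab.2).ncard : ℝ) / ∏ p, ((ab.2 p - ab.1 p : ℤ) : ℝ) := by
    filter_upwards [hev] with ab hab
    refine div_nonneg (Nat.cast_nonneg _) (prod_nonneg fun p _ => ?_)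
    have : 0 ≤ ab.2 p - ab.1 p := by have := hab p; omega
    exact_mod_cast this
  have hcob : F.IsCoboundedUnder (· ≤ ·) (fun ab : (Coord (m + 2) → ℤ) × (Coord (m + 2) → ℤ) =>
      ((E ∩ box ab.1 ab.2).ncard : ℝ) / ∏ p, ((ab.2 p - ab.1 p : ℤ) : ℝ)) :=
    IsBoundedUnder.isCoboundedUnder_le ⟨0, by simpa [eventually_map] using hpos⟩
  have hn0 : (0 : ℝ) < (n : ℝ) + 1 := by positivity
  have hlt : α - 1 / ((n : ℝ) + 1) < upperBanachDensity E := by
    have : 0 < 1 / ((n : ℝ) + 1) := by positivity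
    linarith
  have hfr := frequently_lt_of_lt_limsup hcob hlt
  obtain ⟨⟨a, b⟩, h1, h2⟩ := (hfr.and_eventually hev).exists
  refine ⟨a, b, h2, ?_⟩
  have hvol : (0 : ℝ) < ∏ p, ((b p - a p : ℤ) : ℝ) := by
    refine prod_pos fun p _ => ?_
    have : 0 < b p - a p := by have := h2 p; simp only at this; omega
    exact_mod_cast this
  have h3 : (coords '' E ∩ {x | ∀ p, a p ≤ x p ∧ x p < b p}) = coords '' (E ∩ box a b) := by
    ext x
    constructor
    · rintro ⟨⟨A, hA, rfl⟩, hx⟩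
      exact ⟨A, ⟨hA, hE A hA, hx⟩, rfl⟩
    · rintro ⟨A, ⟨hA, _, hx⟩, rfl⟩
      exact ⟨⟨A, hA, rfl⟩, hx⟩
  have hinj : Set.InjOn coords (E ∩ box a b) := fun A hA B hB h =>
    coords_inj (hE A hA.1) (hE B hB.1) h
  rw [h3, hinj.ncard_image]
  simp only at h1
  rw [lt_div_iff₀ hvol] at h1
  exact h1.le

theorem trace_conj {m : ℕ} (s : ℤ) (X : Matrix (Fin (m + 2)) (Fin (m + 2)) ℤ) :
    (gam m s * X * gam' m s).trace = X.trace := by
  rw [Matrix.trace_mul_comm, ← mul_assoc, gam'_mul_gam, one_mul]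

theorem conj_expand {m : ℕ} (s t : ℤ) (C : Matrix (Fin (m + 2)) (Fin (m + 2)) ℤ)
    (hC : C 1 0 = 1) :
    gam m s * ((1 + t • Matrix.single 0 1 1) * C * (1 - t • Matrix.single 0 1 1)) * gam' m s =
      t ^ 2 • (-(WW m s)) + t • (gam m s * (Matrix.single 0 1 1 * C - C * Matrix.single 0 1 1) *
        gam' m s) + gam m s * C * gam' m s := by
  have h1 : (Matrix.single 0 1 1 : Matrix (Fin (m + 2)) (Fin (m + 2)) ℤ) * C *
      Matrix.single 0 1 1 = Matrix.single 0 1 1 := by
    rw [Matrix.single_mul_mul_single, hC]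
    simp
  rw [← WW_eq]
  set N : Matrix (Fin (m + 2)) (Fin (m + 2)) ℤ := Matrix.single 0 1 1 with hN
  have h2 : (1 + t • N) * C * (1 - t • N) = C + t • (N * C - C * N) - t ^ 2 • N := by
    rw [add_mul, one_mul, smul_mul_assoc, mul_sub, mul_one, add_mul, smul_mul_assoc,
      mul_smul_comm, mul_smul_comm, h1, smul_smul]
    rw [smul_sub, sq]
    abel
  rw [h2, mul_sub, mul_add, sub_mul, add_mul, mul_smul_comm, mul_smul_comm, smul_mul_assoc,
    smul_mul_assoc]
  rw [smul_neg]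
  abel

theorem charpoly_conj {m : ℕ} (s t : ℤ) (C : Matrix (Fin (m + 2)) (Fin (m + 2)) ℤ) :
    (gam m s * ((1 + t • Matrix.single 0 1 1) * C * (1 - t • Matrix.single 0 1 1)) *
      gam' m s).charpoly = C.charpoly := by
  set N : Matrix (Fin (m + 2)) (Fin (m + 2)) ℤ := Matrix.single 0 1 1 with hN
  have h0 : N * N = 0 := Matrix.single_mul_single_of_ne _ _ _ _ (by simp) _
  have h1 : (1 - t • N) * (1 + t • N) = 1 := by
    rw [sub_mul, mul_add, mul_add, one_mul, one_mul, mul_one, smul_mul_smul_comm, h0, smul_zero]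
    abel
  rw [Matrix.charpoly_mul_comm, ← mul_assoc, gam'_mul_gam, one_mul, mul_assoc,
    Matrix.charpoly_mul_comm, mul_assoc, h1, mul_one]

theorem result : ∀ d : ℕ, 2 ≤ d → ∀ α : ℝ, 0 < α → ∃ k : ℕ, 1 ≤ k ∧
    ∀ E : Set (Matrix (Fin d) (Fin d) ℤ), (∀ A ∈ E, A.trace = 0) → α ≤ upperBanachDensity E →
      IsGood k E := by
  intro d hd α hα
  obtain ⟨m, rfl⟩ : ∃ m, d = m + 2 := ⟨d - 2, by omega⟩
  have htrW : ∀ s : ℤ, (-(WW m s)).trace = 0 := by
    intro s
    rw [← WW_eq, Matrix.trace_neg, trace_conj]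
    simp [Matrix.trace_single_eq_of_ne]
  let w : ℕ → Mat0 (m + 2) := fun s => ⟨-(WW m (s : ℤ)), htrW s⟩
  have hw : ∀ T : Finset ℕ, T.card = DD m + 1 →
      ∃ M : ℕ, 1 ≤ M ∧ ∀ v : Mat0 (m + 2), M • v ∈ AddSubgroup.closure (w '' (T : Set ℕ)) := by
    intro T hT
    obtain ⟨Δ, hΔ, h⟩ := span_T (m := m) T hT
    refine ⟨Δ, hΔ, fun v => ?_⟩
    have h1 := h v.1 v.2
    have h2 : (fun s : ℕ => -(WW m (s : ℤ))) '' (T : Set ℕ) =
        (Mat0 (m + 2)).subtype '' (w '' (T : Set ℕ)) := by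
      rw [Set.image_image]
      rfl
    rw [h2, ← AddMonoidHom.map_closure] at h1
    obtain ⟨y, hy, hy2⟩ := AddSubgroup.mem_map.1 h1
    have h3 : y = Δ • v := Subtype.ext (by simpa using hy2)
    rwa [← h3]
  obtain ⟨J, M, R, hM, hmain⟩ := main_abs w (DD m) hw hα
  refine ⟨M ^ J, Nat.one_le_pow _ _ hM, fun E hE hdE A hA => ?_⟩
  obtain ⟨μ, hμ⟩ := mean_of_boxes (coords '' E) α (exists_boxes hE hdE)
  obtain ⟨H, i1, i2, i3, ρ', f, e, hf, he, hinv, hfe, hdiff⟩ := corr μ (coords '' E) hμ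
  let φ : Mat0 (m + 2) →+ (Coord (m + 2) → ℤ) :=
    { toFun := fun v => coords v.1
      map_zero' := rfl
      map_add' := fun _ _ => rfl }
  let ρ : Rep (Mat0 (m + 2)) H :=
    { U := fun v => ρ'.U (φ v)
      zero := fun x => by rw [map_zero, ρ'.zero]
      add := fun a b x => by rw [map_add, ρ'.add] }
  obtain ⟨j, hj, hj2⟩ := hmain H ρ f e hf he (fun a => hinv _) hfe
  -- the companion matrix
  set A' : Matrix (Fin (m + 2)) (Fin (m + 2)) ℤ := M ^ (J - j) • A with hA'
  have hA't : A'.trace = 0 := by rw [hA', Matrix.trace_smul, hA, smul_zero]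
  obtain ⟨C, hC1, hC2⟩ := exists_companion m A'.charpoly (Matrix.charpoly_monic _) (by
    rw [Matrix.charpoly_natDegree_eq_dim, Fintype.card_fin])
  have hCt : C.trace = 0 := by
    rw [Matrix.trace_eq_neg_charpoly_coeff, hC1, ← Matrix.trace_eq_neg_charpoly_coeff, hA't]
  obtain ⟨i, _, t, hit⟩ := hj2
    (fun s => ⟨gam m s * (Matrix.single 0 1 1 * C - C * Matrix.single 0 1 1) * gam' m s, by
      show Matrix.trace _ = 0
      rw [trace_conj, Matrix.trace_sub, Matrix.trace_mul_comm, sub_self]⟩)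
    (fun s => ⟨gam m s * C * gam' m s, by
      show Matrix.trace _ = 0
      rw [trace_conj, hCt]⟩)
  obtain ⟨_, ⟨X, hX, rfl⟩, _, ⟨Y, hY, rfl⟩, hXY⟩ := hdiff _ hit
  refine ⟨X, hX, Y, hY, ?_⟩
  set B : Matrix (Fin (m + 2)) (Fin (m + 2)) ℤ :=
    gam m i * ((1 + (t : ℤ) • Matrix.single 0 1 1) * C * (1 - (t : ℤ) • Matrix.single 0 1 1)) *
      gam' m i with hB
  have hBeq : M ^ j • B = X - Y := by
    refine coords_inj ?_ ?_ ?_
    · rw [Matrix.trace_smul, hB, trace_conj, Matrix.trace_mul_comm, ← mul_assoc]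
      have h0 : (Matrix.single 0 1 1 : Matrix (Fin (m + 2)) (Fin (m + 2)) ℤ) *
        Matrix.single 0 1 1 = 0 := Matrix.single_mul_single_of_ne _ _ _ _ (by simp) _
      have h1 : (1 - (t : ℤ) • (Matrix.single 0 1 1 : Matrix (Fin (m + 2)) (Fin (m + 2)) ℤ)) *
          (1 + (t : ℤ) • Matrix.single 0 1 1) = 1 := by
        rw [sub_mul, mul_add, mul_add, one_mul, one_mul, mul_one, smul_mul_smul_comm, h0,
          smul_zero]
        abel
      rw [h1, one_mul, hCt, smul_zero]
    · rw [Matrix.trace_sub, hE X hX, hE Y hY, sub_zero]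
    · have h2 : coords (X - Y) = coords X - coords Y := rfl
      rw [h2, ← hXY, hB, conj_expand _ _ _ hC2]
      have h6 : ∀ v : Mat0 (m + 2), φ v = coords v.1 := fun _ => rfl
      rw [h6]
      congr 1
  rw [← hBeq]
  have h5 : B.charpoly = A'.charpoly := by rw [hB, charpoly_conj, hC1]
  rw [charpoly_nsmul h5, hA', smul_smul, ← pow_add, Nat.add_sub_cancel' hj.le]

end Pool.Agent.Results.MP_4086d8_co.UniformScale
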